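import Pool.Agent.NH61.Decic.Final

/-!
# The strict inclusions in the filtration of MP_646cd9_ag

`C_i ⊊ C_{i+1}` holds exactly for `8 ≤ i ≤ 17`, and `C_0 = ⋯ = C_8 = Σ_{3,10}`.
-/

namespace Pool.Agent.Results.MP_646cd9_ag.StrictInclusions

open Pool.Agent.NH61.Decic

theorem strict_eight : cone 8 ⊂ cone 9 :=
  strict_step 8 11 1 8 7 [![0, 4, 7], ![1, 6, 0], ![6, 0, 1]] ![1, 0, 2]
    (by decide) (by decide) (by decide) (by decide) (by decide) (by decide +kernel)
    (by decide +kernel) (by decide +kernel) (by decide +kernel) (by decide +kernel)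
    (by decide +kernel)

theorem strict_nine : cone 9 ⊂ cone 10 :=
  strict_step 9 12 2 9 8 [![0, 4, 7], ![6, 0, 1], ![1, 6, 0]] ![1, 0, 2]
    (by decide) (by decide) (by decide) (by decide) (by decide) (by decide +kernel)
    (by decide +kernel) (by decide +kernel) (by decide +kernel) (by decide +kernel)
    (by decide +kernel)

theorem strict_ten : cone 10 ⊂ cone 11 :=
  strict_step 10 13 3 10 9 [![6, 0, 5], ![0, 1, 6], ![1, 6, 0]] ![1, 0, 2]
    (by decide) (by decide) (by decide) (by decide) (by decide) (by decide +kernel)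
    (by decide +kernel) (by decide +kernel) (by decide +kernel) (by decide +kernel)
    (by decide +kernel)

theorem strict_eleven : cone 11 ⊂ cone 12 :=
  strict_step 11 14 2 10 9 [![4, 0, 7], ![4, 7, 0]] ![1, 0, 3]
    (by decide) (by decide) (by decide) (by decide) (by decide) (by decide +kernel)
    (by decide +kernel) (by decide +kernel) (by decide +kernel) (by decide +kernel)
    (by decide +kernel)

theorem strict_twelve : cone 12 ⊂ cone 13 :=
  strict_step 12 15 7 13 12 [![4, 7, 0], ![0, 1, 6], ![6, 0, 1]] ![1, 0, 2]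
    (by decide) (by decide) (by decide) (by decide) (by decide) (by decide +kernel)
    (by decide +kernel) (by decide +kernel) (by decide +kernel) (by decide +kernel)
    (by decide +kernel)

theorem strict_thirteen : cone 13 ⊂ cone 14 :=
  strict_step 13 16 8 14 13 [![7, 0, 4], ![1, 6, 0], ![0, 1, 6]] ![1, 0, 2]
    (by decide) (by decide) (by decide) (by decide) (by decide) (by decide +kernel)
    (by decide +kernel) (by decide +kernel) (by decide +kernel) (by decide +kernel)
    (by decide +kernel)

theorem strict_fourteen : cone 14 ⊂ cone 15 :=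
  strict_step 14 17 7 14 13 [![5, 0, 6], ![4, 7, 0]] ![1, 0, 3]
    (by decide) (by decide) (by decide) (by decide) (by decide) (by decide +kernel)
    (by decide +kernel) (by decide +kernel) (by decide +kernel) (by decide +kernel)
    (by decide +kernel)

theorem strict_fifteen : cone 15 ⊂ cone 16 :=
  strict_step 15 18 12 17 16 [![4, 7, 0], ![0, 1, 6], ![6, 0, 1]] ![1, 0, 2]
    (by decide) (by decide) (by decide) (by decide) (by decide) (by decide +kernel)
    (by decide +kernel) (by decide +kernel) (by decide +kernel) (by decide +kernel)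
    (by decide +kernel)

theorem strict_sixteen : cone 16 ⊂ cone 17 :=
  strict_step 16 19 11 17 16 [![4, 7, 0], ![4, 0, 7]] ![1, 0, 3]
    (by decide) (by decide) (by decide) (by decide) (by decide) (by decide +kernel)
    (by decide +kernel) (by decide +kernel) (by decide +kernel) (by decide +kernel)
    (by decide +kernel)

theorem strict_seventeen : cone 17 ⊂ cone 18 :=
  strict_step 17 20 19 2 16 [![0, 6, 1], ![7, 0, 4]] ![4, 0, 3]
    (by decide) (by decide) (by decide) (by decide) (by decide) (by decide +kernel)
    (by decide +kernel) (by decide +kernel) (by decide +kernel) (by decide +kernel)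
    (by decide +kernel)

/-- **Answer to Q1 of MP_646cd9_ag.** For `i ≤ 17`, the inclusion `C_i ⊆ C_{i+1}` is strict if
and only if `8 ≤ i`; so exactly ten of the eighteen inclusions are strict. Moreover
`C_0 = C_1 = ⋯ = C_8 = Σ_{3,10}`. -/
theorem result :
    (∀ i : ℕ, i ≤ 17 → cone i ⊆ cone (i + 1)) ∧
    (∀ i : ℕ, i ≤ 8 → cone i = sosCone) ∧
    (∀ i : ℕ, i ≤ 17 → (cone i ⊂ cone (i + 1) ↔ 8 ≤ i)) ∧
    Set.ncard {i : ℕ | i ≤ 17 ∧ cone i ⊂ cone (i + 1)} = 10 := by
  have hmain : ∀ i : ℕ, i ≤ 17 → (cone i ⊂ cone (i + 1) ↔ 8 ≤ i) := by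
    intro i hi
    constructor
    · intro h
      by_contra hlt
      push Not at hlt
      rw [cone_eq_sosCone i (by omega), cone_eq_sosCone (i + 1) (by omega)] at h
      exact h.2 (subset_refl _)
    · intro h
      interval_cases i
      · exact strict_eight
      · exact strict_nine
      · exact strict_ten
      · exact strict_eleven
      · exact strict_twelve
      · exact strict_thirteen
      · exact strict_fourteen
      · exact strict_fifteen
      · exact strict_sixteen
      · exact strict_seventeen
  refine ⟨fun i _ => cone_mono (Nat.le_succ i), cone_eq_sosCone, hmain, ?_⟩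
  have hset : {i : ℕ | i ≤ 17 ∧ cone i ⊂ cone (i + 1)} = ((Finset.Icc 8 17 : Finset ℕ) : Set ℕ) := by
    ext i
    simp only [Set.mem_setOf_eq, Finset.coe_Icc, Set.mem_Icc]
    constructor
    · rintro ⟨h1, h2⟩
      exact ⟨(hmain i h1).mp h2, h1⟩
    · rintro ⟨h1, h2⟩
      exact ⟨h2, (hmain i h2).mpr h1⟩
  rw [hset, Set.ncard_coe_finset]
  rfl

end Pool.Agent.Results.MP_646cd9_ag.StrictInclusions
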